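import Pool.Agent.Helper84.BT.Goals

/-!
# Packet BT-AUX (project BT, MP_57df85_nt): the auxiliary polynomials
-/

set_option autoImplicit false

open Finset

namespace Pool.Agent.Helper12.BT.AUX

open Pool.Agent.Helper84.BT
open scoped Polynomial

lemma geo (r : ℤ) (hr : 2 ≤ r) (n : ℕ) : ∑ i ∈ range (n + 1), r ^ i ≤ 2 * r ^ n := by
  induction n with
  | zero => simp
  | succ n ih =>
    rw [sum_range_succ, pow_succ]
    have h1 : 0 < r ^ n := by positivity
    nlinarith [mul_le_mul_of_nonneg_left hr h1.le]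

/-- the coefficients of a product, `Q` a polynomial -/
lemma coeff_gQ (g : PowerSeries ℤ) (Q : ℤ[X]) (n : ℕ) :
    PowerSeries.coeff n (g * (Q : PowerSeries ℤ)) =
      ∑ k ∈ range (n + 1), Q.coeff k * PowerSeries.coeff (n - k) g := by
  rw [mul_comm, PowerSeries.coeff_mul,
    Finset.Nat.sum_antidiagonal_eq_sum_range_succ
      (fun i j => PowerSeries.coeff i (Q : PowerSeries ℤ) * PowerSeries.coeff j g)]
  simp only [Polynomial.coeff_coe, Nat.succ_eq_add_one]

/-- the bound for the coefficients of the product -/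
lemma bound_gQ (p H : ℤ) (g : PowerSeries ℤ) (Q : ℤ[X]) (hp : 2 ≤ p) (hH : 0 ≤ H)
    (hg : ∀ n : ℕ, |PowerSeries.coeff n g| ≤ ((n : ℤ) + 1) * (4 * p) ^ n)
    (hQ : ∀ n, |Q.coeff n| ≤ H) (n : ℕ) :
    |PowerSeries.coeff n (g * (Q : PowerSeries ℤ))| ≤ 2 * H * ((n : ℤ) + 1) * (4 * p) ^ n := by
  rw [coeff_gQ]
  calc |∑ k ∈ range (n + 1), Q.coeff k * PowerSeries.coeff (n - k) g|
      ≤ ∑ k ∈ range (n + 1), |Q.coeff k * PowerSeries.coeff (n - k) g| :=
        Finset.abs_sum_le_sum_abs _ _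
    _ ≤ ∑ k ∈ range (n + 1), H * ((n : ℤ) + 1) * (4 * p) ^ (n - k) := by
        apply Finset.sum_le_sum
        intro k hk
        rw [abs_mul, mul_assoc]
        apply mul_le_mul (hQ k) _ (abs_nonneg _) hH
        refine (hg (n - k)).trans ?_
        apply mul_le_mul_of_nonneg_right _ (by positivity)
        have h1 : ((n - k : ℕ) : ℤ) ≤ (n : ℤ) := by exact_mod_cast Nat.sub_le n k
        linarith
    _ = H * ((n : ℤ) + 1) * ∑ k ∈ range (n + 1), (4 * p) ^ (n - k) := by
        rw [Finset.mul_sum]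
    _ = H * ((n : ℤ) + 1) * ∑ k ∈ range (n + 1), (4 * p) ^ k := by
        congr 1
        have h1 := Finset.sum_range_reflect (fun k => (4 * p) ^ k) (n + 1)
        rw [← h1]
        apply Finset.sum_congr rfl
        intro k _
        congr 1
    _ ≤ H * ((n : ℤ) + 1) * (2 * (4 * p) ^ n) :=
        mul_le_mul_of_nonneg_left (geo (4 * p) (by linarith) n) (by positivity)
    _ = 2 * H * ((n : ℤ) + 1) * (4 * p) ^ n := by ring

theorem t : S_AUX := by
  intro hSer hSG p m1 m2 T hp hm hT hcard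
  set g : PowerSeries ℤ := Sr (-1) (-p) with hg
  obtain ⟨M, hM⟩ : ∃ M : ℕ, (M : ℤ) = p := ⟨p.toNat, Int.toNat_of_nonneg (by linarith)⟩
  have hbd : ∀ n : ℕ, |PowerSeries.coeff n g| ≤ ((n : ℤ) + 1) * (4 * p) ^ n := by
    intro n
    have h1 := (hSer (-1) (-p)).2.2.2 M (by rw [hM]; simp; linarith)
      (by rw [hM, abs_neg, abs_of_nonneg (by linarith)]) n
    rw [hM] at h1
    exact h1
  have hM2 : 2 ≤ M := by
    have : (2 : ℤ) ≤ M := by rw [hM]; exact hp
    exact_mod_cast this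
  have hT0 : 1 ≤ T := by omega
  -- Siegel
  obtain ⟨c, hc0, hc1, hc2⟩ := hSG (Fin (m2 + 1)) (Fin (T - 1 - m1))
    (fun k i => PowerSeries.coeff (m1 + 1 + (k : ℕ) - (i : ℕ)) g) (T * (4 * M) ^ T)
    (Nat.mul_pos hT0 (by positivity))
    (by
      intro k i
      have hk := k.2
      have hi := i.2
      refine (hbd _).trans ?_
      push_cast
      rw [hM]
      apply mul_le_mul _ _ (by positivity) (by positivity)
      · have h1 : m1 + 1 + (k : ℕ) - (i : ℕ) + 1 ≤ T := by omega
        exact_mod_cast h1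
      · exact pow_le_pow_right₀ (by linarith) (by omega))
    (by
      rw [Fintype.card_fin, Fintype.card_fin]
      exact hcard)
  rw [Fintype.card_fin] at hc2
  push_cast at hc2
  rw [hM] at hc2
  set H : ℤ := (((m2 + 1 : ℕ) : ℤ) * T * (4 * p) ^ T) ^ 5 with hH
  have hH0 : 0 ≤ H := by positivity
  set Q : ℤ[X] := Polynomial.ofFn (m2 + 1) c with hQ
  have hQc : ∀ i : Fin (m2 + 1), Q.coeff i = c i := fun i => by
    rw [hQ, Polynomial.ofFn_coeff_eq_val_of_lt c i.2]
  have hQz : ∀ n, m2 + 1 ≤ n → Q.coeff n = 0 := fun n hn => by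
    rw [hQ, Polynomial.ofFn_coeff_eq_zero_of_ge c hn]
  have hQH : ∀ n, |Q.coeff n| ≤ H := by
    intro n
    by_cases hn : n < m2 + 1
    · have h1 := hc2 ⟨n, hn⟩
      rw [← hQc ⟨n, hn⟩] at h1
      refine h1.trans (le_of_eq ?_)
      rw [hH]
      push_cast
      ring
    · rw [hQz n (not_lt.mp hn), abs_zero]
      exact hH0
  have hPc : ∀ n, (PowerSeries.trunc (m1 + 1) (g * (Q : PowerSeries ℤ))).coeff n =
      if n < m1 + 1 then PowerSeries.coeff n (g * (Q : PowerSeries ℤ)) else 0 := fun n =>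
    PowerSeries.coeff_trunc n (m1 + 1) _
  refine ⟨PowerSeries.trunc (m1 + 1) (g * (Q : PowerSeries ℤ)), Q, ?_, ?_, ?_, ?_, hQH, ?_⟩
  · intro h0
    apply hc0
    funext i
    rw [← hQc i, h0]
    simp
  · exact Nat.lt_succ_iff.mp (PowerSeries.natDegree_trunc_lt _ m1)
  · have h1 := Polynomial.ofFn_natDegree_lt (show 1 ≤ m2 + 1 by omega) c
    exact Nat.lt_succ_iff.mp h1
  · rw [PowerSeries.X_pow_dvd_iff]
    intro n hn
    rw [map_sub, Polynomial.coeff_coe, hPc]
    by_cases hn1 : n < m1 + 1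
    · rw [if_pos hn1, sub_self]
    · rw [if_neg hn1, zero_sub, neg_eq_zero, coeff_gQ]
      have h1 : ∑ k ∈ range (n + 1), Q.coeff k * PowerSeries.coeff (n - k) g =
          ∑ k ∈ range (m2 + 1), Q.coeff k * PowerSeries.coeff (n - k) g := by
        symm
        apply Finset.sum_subset
        · intro k hk
          rw [Finset.mem_range] at hk ⊢
          omega
        · intro k _ hk
          rw [Finset.mem_range, not_lt] at hk
          rw [hQz k hk, zero_mul]
      rw [h1, Finset.sum_range]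
      have h2 : ∑ i : Fin (m2 + 1), PowerSeries.coeff (m1 + 1 + (n - m1 - 1) - (i : ℕ)) g * c i = 0 :=
        hc1 ⟨n - m1 - 1, by omega⟩
      have h3 : m1 + 1 + (n - m1 - 1) = n := by omega
      rw [h3] at h2
      rw [← h2]
      apply Finset.sum_congr rfl
      intro i _
      rw [hQc i, mul_comm]
  · intro n
    rw [hPc]
    by_cases hn1 : n < m1 + 1
    · rw [if_pos hn1]
      exact bound_gQ p H g Q hp hH0 hbd hQH n
    · rw [if_neg hn1, abs_zero]
      positivity

end Pool.Agent.Helper12.BT.AUX
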