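import Pool.Agent.Helper61.BT.Goals

/-! Project BT (captains helper87, helper61), packet PRK: the diagonal projection. -/

set_option autoImplicit false

namespace Pool.Agent.Helper12.BT

open Pool.Agent.Helper27.VF Pool.Agent.Helper38.VF Pool.Agent.Helper61.BT

universe u

theorem prk (hK : KurStmt.{u}) : PrkStmt.{u} := by
  intro A _ k π hsa hid hequ N hN
  obtain ⟨T, hT⟩ := hK A k
  have hTs : ∀ (f : L2 (Fin k × A)) (i : Fin k) (a : A), (T.symm f) i a = f (i, a) := by
    intro f i a
    rw [← hT (T.symm f) i a, T.apply_symm_apply]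
  let Q : (Fin k → L2 A) →L[ℝ] (Fin k → L2 A) :=
    ContinuousLinearMap.pi fun i => (π i).comp (ContinuousLinearMap.proj i)
  let P : L2 (Fin k × A) →L[ℝ] L2 (Fin k × A) :=
    (T : (Fin k → L2 A) →L[ℝ] L2 (Fin k × A)).comp
      (Q.comp (T.symm : L2 (Fin k × A) →L[ℝ] (Fin k → L2 A)))
  have hP : ∀ (f : L2 (Fin k × A)) (i : Fin k) (a : A), (P f) (i, a) = (π i (T.symm f i)) a := by
    intro f i a
    show (T (Q (T.symm f))) (i, a) = _
    rw [hT]
    rfl
  have hPs : ∀ (f : L2 (Fin k × A)) (i : Fin k), T.symm (P f) i = π i (T.symm f i) := by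
    intro f i
    ext a
    rw [hTs, hP]
  have hinner : ∀ f g : L2 (Fin k × A),
      inner ℝ f g = ∑ i : Fin k, inner ℝ (T.symm f i) (T.symm g i) := by
    intro f g
    have h1 : HasSum (fun z : Fin k × A => inner ℝ (f z) (g z)) (inner ℝ f g) :=
      lp.hasSum_inner f g
    have h2 : ∀ i : Fin k, HasSum (fun a : A => inner ℝ (f (i, a)) (g (i, a)))
        (inner ℝ (T.symm f i) (T.symm g i)) := by
      intro i
      have h3 := lp.hasSum_inner (𝕜 := ℝ) (T.symm f i) (T.symm g i)
      simpa only [hTs] using h3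
    have h4 := h1.prod_fiberwise h2
    exact h4.unique (hasSum_fintype _)
  refine ⟨P, ?_, ?_, ?_, ?_, ?_⟩
  · intro h f f' hff z
    obtain ⟨i, a⟩ := z
    rw [hP, hP]
    exact hequ i h (T.symm f i) (T.symm f' i) (fun b => by rw [hTs, hTs, hff]) a
  · intro f g
    rw [hinner, hinner]
    refine Finset.sum_congr rfl fun i _ => ?_
    rw [hPs, hPs, hsa]
  · intro f
    ext z
    obtain ⟨i, a⟩ := z
    rw [hP, hPs, hid, hP]
  · intro f e he i a
    rw [hP]
    have : T.symm f i = e i := by
      ext b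
      rw [hTs, he]
    rw [this]
  · unfold tr'
    have h1 : ∀ (inst : DecidableEq (Fin k × A)) (j : Fin k), 1 / (2 * (N : ℝ)) ≤
        (P (@lp.single (Fin k × A) (fun _ => ℝ) _ inst 2 (j, (1 : A)) (1 : ℝ))) (j, 1) := by
      intro inst j
      rw [hP]
      refine hN j _ ?_
      intro a
      rw [hTs]
      by_cases ha : a = 1
      · rw [if_pos ha, ha, lp.single_apply_self]
      · rw [if_neg ha, lp.single_apply_ne]
        intro h
        exact ha (congrArg Prod.snd h)
    calc (k : ℝ) / (2 * N) = ∑ j : Fin k, 1 / (2 * (N : ℝ)) := by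
          rw [Finset.sum_const, Finset.card_univ, Fintype.card_fin, nsmul_eq_mul]
          ring
      _ ≤ _ := Finset.sum_le_sum fun j _ => ?_
    exact h1 _ j

end Pool.Agent.Helper12.BT
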